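import Pool.Agent.Helper63.ML.Defs
import Pool.Agent.Helper69.MD.Defs

/-!
# ML-FR: explicit orthonormal frames
-/

set_option autoImplicit false
namespace Pool.Agent.Helper63.ML
open Complex Metric MeasureTheory
open scoped ComplexConjugate ENNReal
open Pool.Agent.Helper69.MD

/-- `√(1 - |c|²)`. -/
noncomputable def hh (c : ℂ) : ℝ := Real.sqrt (1 - ‖c‖ ^ 2)
/-- The projections of space to the plane `ℂ`, one for each point of the unit disc. -/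
noncomputable def LL (c : ℂ) (x : E3) : ℂ :=
  (c ^ 2 - (hh c : ℂ) ^ 2) * (x 0 : ℂ) + I * (c ^ 2 + (hh c : ℂ) ^ 2) * (x 1 : ℂ) -
    2 * c * (hh c : ℂ) * (x 2 : ℂ)

/-- The linear map with the explicit matrix (`h² = 1 - a² - b²`). -/
noncomputable def frameMap (a b h : ℝ) : E3 →ₗ[ℝ] E3 where
  toFun x := !₂[(a ^ 2 - b ^ 2 - h ^ 2) * x 0 - 2 * a * b * x 1 - 2 * a * h * x 2,
    2 * a * b * x 0 + (a ^ 2 - b ^ 2 + h ^ 2) * x 1 - 2 * b * h * x 2,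
    2 * a * h * x 0 - 2 * b * h * x 1 + (a ^ 2 + b ^ 2 - h ^ 2) * x 2]
  map_add' x y := by
    ext i
    fin_cases i <;> simp <;> ring
  map_smul' r x := by
    ext i
    fin_cases i <;> simp <;> ring

theorem frameMap_norm {a b h : ℝ} (hh : a ^ 2 + b ^ 2 + h ^ 2 = 1) (x : E3) :
    ‖frameMap a b h x‖ = ‖x‖ := by
  rw [EuclideanSpace.norm_eq, EuclideanSpace.norm_eq]
  congr 1
  have hh' : h ^ 2 = 1 - a ^ 2 - b ^ 2 := by linarith
  simp only [Fin.sum_univ_three, Real.norm_eq_abs, sq_abs, frameMap, LinearMap.coe_mk,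
    AddHom.coe_mk]
  simp
  linear_combination ((a ^ 2 + b ^ 2 + h ^ 2) * (x 0 ^ 2 + x 1 ^ 2 + x 2 ^ 2) +
    (x 0 ^ 2 + x 1 ^ 2 + x 2 ^ 2)) * hh

theorem exists_frame {c : ℂ} (hc : c ∈ closedBall (0 : ℂ) 1) :
    ∃ g : E3 ≃ₗᵢ[ℝ] E3, ∀ x, LL c x = ((g x 0 : ℝ) : ℂ) + ((g x 1 : ℝ) : ℂ) * I := by
  have hc1 : ‖c‖ ≤ 1 := by simpa using hc
  have hn : ‖c‖ ^ 2 = c.re ^ 2 + c.im ^ 2 := by
    rw [← Complex.normSq_eq_norm_sq, Complex.normSq_apply]; ring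
  have h1 : (hh c) ^ 2 = 1 - ‖c‖ ^ 2 := by
    unfold hh
    rw [Real.sq_sqrt]
    nlinarith [norm_nonneg c]
  have h2 : c.re ^ 2 + c.im ^ 2 + (hh c) ^ 2 = 1 := by rw [h1, hn]; ring
  let li : E3 →ₗᵢ[ℝ] E3 := ⟨frameMap c.re c.im (hh c), frameMap_norm h2⟩
  refine ⟨li.toLinearIsometryEquiv rfl, fun x => ?_⟩
  have hg : ∀ i, (li.toLinearIsometryEquiv rfl) x i = frameMap c.re c.im (hh c) x i := fun i => rfl
  rw [hg, hg]
  apply Complex.ext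
  · simp [LL, frameMap, pow_two]
    ring
  · simp [LL, frameMap, pow_two]
    left
    ring

end Pool.Agent.Helper63.ML
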